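import Pool.Agent.MP_fcd29e_an.H8.CF1b

/-!
The smooth multivalued gauge.
-/

set_option autoImplicit false

open Complex Set Filter Topology Metric Pool.Agent.MP_fcd29e_an.H11
open scoped ContDiff

namespace Pool.Agent.MP_fcd29e_an.H8

noncomputable section

variable {r m : ℕ}

/-- Logarithms with cuts to the left. -/
def hR (j : Fin m) (t : ℂ) : ℂ := log (t - tp j)

/-- Logarithms in the left half plane. -/
def hL (j : Fin m) (t : ℂ) : ℂ := log (-(t - tp j)) + Real.pi * I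

/-- The domain of the first branch. -/
def OR (m : ℕ) : Set ℂ := {t | (∀ j : Fin m, t - tp j ∈ slitPlane) ∧
  (0 < t.re ∨ ‖t‖ < m - 1 / 2 ∨ t.im < 0 ∨ (m : ℝ) - 1 < t.im)}

/-- The transition between the branches. -/
def qq (n : ℕ) (c S : ℝ) (om : Fin m → Fin r → ℂ) (t : ℂ) : EV (Fin r) :=
  ((List.finRange m).map fun j : Fin m =>
    if t.im < (j : ℕ) then rot c S (om j) (exp (2 * Real.pi * I / n)) else 1).prod

theorem OR_open : IsOpen (OR m) := by
  have h1 : IsOpen {t : ℂ | ∀ j : Fin m, t - tp j ∈ slitPlane} := by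
    rw [ofPred_forall]
    exact isOpen_iInter_of_finite fun j => isOpen_slitPlane.preimage (by fun_prop)
  exact h1.inter ((isOpen_lt continuous_const continuous_re).union
    ((isOpen_lt continuous_norm continuous_const).union
      ((isOpen_lt continuous_im continuous_const).union (isOpen_lt continuous_const continuous_im))))

theorem hR_an {t : ℂ} (ht : t ∈ OR m) (j : Fin m) : AnalyticAt ℂ (hR j) t :=
  (analyticAt_id.sub analyticAt_const).clog (ht.1 j)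

theorem hL_an {t : ℂ} (ht : t.re < 0) (j : Fin m) : AnalyticAt ℂ (hL j) t :=
  ((analyticAt_id.sub analyticAt_const).neg.clog
    (Or.inl (by simpa [tp_re] using ht))).add analyticAt_const

theorem h_bd {t : ℂ} (j : Fin m) (h0 : 1 / 5 ≤ ‖t - tp j‖) (h1 : ‖t‖ ≤ m + 3) :
    ‖hR j t‖ ≤ 2 * m + 16 ∧ ‖hL j t‖ ≤ 2 * m + 16 := by
  have a : ‖t - tp j‖ ≤ 2 * m + 2 := by linarith [norm_sub_le t (tp j), tp_norm j]
  have b := log_bd (w := -(t - tp j)) (R := 2 * m + 2) (by rwa [norm_neg]) (by rwa [norm_neg])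
  have c := norm_add_le (log (-(t - tp j))) (Real.pi * I)
  have d : ‖(Real.pi : ℂ) * I‖ ≤ 4 := by
    simpa [abs_of_pos Real.pi_pos] using Real.pi_le_four
  have m0 : (0 : ℝ) ≤ m := by positivity
  exact ⟨(log_bd h0 a).trans (by linarith), c.trans (by linarith)⟩

theorem hL_eq {t : ℂ} (ht : t.re < 0) (j : Fin m) :
    hL j t = hR j t + if t.im < (j : ℕ) then 2 * Real.pi * I else 0 := by
  rw [hL, hR, log_neg' (by simpa [tp_re] using ht)]
  simp only [sub_im, tp_im, sub_neg]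

theorem cover {t : ℂ} (ht : ∀ j : Fin m, t ≠ tp j) : t.re < 0 ∨ t ∈ OR m := by
  rcases lt_trichotomy t.re 0 with h | h | h
  · exact Or.inl h
  · refine Or.inr ⟨fun j => Or.inr fun h1 => ht j (Complex.ext (by rw [h, tp_re]) ?_), ?_⟩
    · rwa [sub_im, sub_eq_zero] at h1
    · by_contra h2
      push Not at h2
      have := norm_le_abs_re_add_abs_im t
      rw [h, abs_zero, abs_of_nonneg h2.2.2.1] at this
      linarith [h2.2.1, h2.2.2.2]
  · exact Or.inr ⟨fun j => Or.inl (by simpa [tp_re] using h), Or.inl h⟩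

theorem hub_sub {t₀ : ℂ} (h0 : ∀ j : Fin m, 1 / 4 ≤ ‖t₀ - tp j‖) (h1 : -(1 / 32) < t₀.re) :
    ball t₀ (1 / 32) ⊆ OR m := by
  intro t ht
  rw [mem_ball, dist_eq_norm] at ht
  have a1 := abs_lt.1 ((abs_re_le_norm (t - t₀)).trans_lt ht)
  rw [sub_re] at a1
  refine ⟨fun j => ?_, ?_⟩
  · by_contra h2
    rw [mem_slitPlane_iff] at h2
    push Not at h2
    have a2 := norm_le_abs_re_add_abs_im (t - tp j)
    rw [h2.2, abs_zero, abs_of_nonpos h2.1, sub_re, tp_re] at a2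
    have a3 := norm_sub_le (t - tp j) (t - t₀)
    rw [show t - tp j - (t - t₀) = t₀ - tp j by ring] at a3
    linarith [h0 j]
  · by_contra h2
    push Not at h2
    have := norm_le_abs_re_add_abs_im t
    rw [abs_of_nonpos h2.1, abs_of_nonneg h2.2.2.1] at this
    linarith [h2.2.1, h2.2.2.2]

variable {n : ℕ} {c S : ℝ} {om : Fin m → Fin r → ℂ}

theorem qq_op (hG : SGR) (hB : RepB r m c S om) (t : ℂ) : Op1 (qq n c S om t) := by
  refine List.prod_induction Op1 (hG.op _).2.1 (hG.op _).1 fun x hx => ?_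
  obtain ⟨j, -, rfl⟩ := List.mem_map.1 hx
  split_ifs
  · refine ((hG.rt _ c S _ (hB.ax j)).2 _ (exp_ne_zero _)).2.1 ?_
    rw [show 2 * Real.pi * I / n = ((2 * Real.pi / n : ℝ) : ℂ) * I by push_cast; ring,
      norm_exp_ofReal_mul_I]
  · exact (hG.op _).1

theorem qq_loc {t : ℂ} (ht : ∀ j : Fin m, t.im ≠ (j : ℕ)) :
    ∀ᶠ y in 𝓝 t, qq n c S om y = qq n c S om t := by
  have : ∀ᶠ y : ℂ in 𝓝 t, ∀ j : Fin m, (y.im < (j : ℕ) ↔ t.im < (j : ℕ)) := by
    refine eventually_all.2 fun j => ?_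
    rcases (ht j).lt_or_gt with h | h
    · filter_upwards [continuous_im.continuousAt.eventually_lt continuousAt_const h] with y hy
        using iff_of_true hy h
    · filter_upwards [continuousAt_const.eventually_lt continuous_im.continuousAt h] with y hy
        using iff_of_false hy.not_gt h.not_gt
  filter_upwards [this] with y hy
  simp only [qq, hy]

theorem opp_zero (P Q : EV (Fin r)) : opp P Q 0 = 1 := by
  rw [opp, neg_zero, exp_zero]
  module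

variable [NeZero m]

theorem rel (hG : SGR) (hK : RepOK r m n c S om) {t : ℂ} (ht : t.re < 0)
    (h : ‖t‖ < m - 1 / 2 ∨ t.im < 0 ∨ (m : ℝ) - 1 < t.im) :
    Gb n c S om hL 1 t = Gb n c S om hR 0 t * qq n c S om t := by
  have s1 : ∀ j : Fin m, el n hL 1 j t =
      el n hR 0 j t + if t.im < (j : ℕ) then 2 * Real.pi * I / n else 0 := fun j => by
    rw [el, el, hL_eq ht, ch, dn]
    split_ifs with a
    · rw [th0 (y := t.im - (j : ℕ)) (by linarith)]; ring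
    · rw [th0 (y := (j : ℕ) - t.im) (by linarith)]; ring
  have s2 : Nb n c S om hL 1 t = Nb n c S om hR 0 t * qq n c S om t := by
    rw [Nb, Nb, qq, ← prod_mul_comm]
    · congr 2
      funext j
      rw [s1, opp_rot hG (hK.ax j), opp_rot hG (hK.ax j)]
      split_ifs
      · rw [exp_add, ((hG.rt _ c S _ (hK.ax j)).2 _ (exp_ne_zero _)).2.2.1 _ (exp_ne_zero _)]
      · rw [add_zero, mul_one]
    · refine (List.pairwise_lt_finRange m).imp fun {i j} hij => ?_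
      split_ifs with a
      · have : ((i : ℕ) : ℝ) + 1 ≤ (j : ℕ) := by exact_mod_cast hij
        rw [el, ch, th0 (y := t.im - (j : ℕ)) (by linarith),
          th1 (y := (j : ℕ) - t.im) (by linarith)]
        simp only [sub_zero, sub_self, zero_mul, add_zero, zero_div, opp_zero]
        exact Commute.one_right _
      · exact Commute.one_left _
  have s3 : t.im < 0 ∨ (m : ℝ) - 1 < t.im →
      Mb (m := m) n hL t = Mb (r := r) (m := m) n hR t * qq n c S om t := by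
    have m1 : (1 : ℝ) ≤ m := by exact_mod_cast NeZero.one_le
    rw [Mb, Mb, hL_eq ht, opp_dg hG, opp_dg hG]
    rintro (a | a)
    · have e : qq n c S om t = dg (exp (2 * Real.pi * I / n) ^ (4 * m)) := by
        rw [← hK.prod, List.ofFn_eq_map, qq]
        congr 2
        funext j
        rw [if_pos (a.trans_le (by positivity))]
      rw [e, if_pos (by simpa using a), ← ((hG.dgp _).2 _ (exp_ne_zero _)).2.2 _
        (pow_ne_zero _ (exp_ne_zero _)), ← exp_nat_mul, ← exp_add]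
      congr 2
      push_cast
      ring
    · have e : qq n c S om t = 1 := by
        refine List.prod_eq_one fun x hx => ?_
        obtain ⟨j, -, rfl⟩ := List.mem_map.1 hx
        have : ((j : ℕ) : ℝ) + 1 ≤ m := by exact_mod_cast j.2
        rw [if_neg (by linarith)]
      rw [e, if_neg (by simp only [Fin.val_zero, Nat.cast_zero]; linarith), add_zero, mul_one]
  rcases h with h | h
  · rw [Gb_in h, Gb_in h, s2]
  · rw [Gb, Gb, s2, s3 h, add_mul, smul_mul', smul_mul']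

theorem GR_disc (hG : SGR) (hB : RepB r m c S om) {t : ℂ} {j : Fin m} (ht : ‖t - tp j‖ < 1 / 3) :
    Gb n c S om hR 0 t = rot c S (om j) (exp (log (t - tp j) / n)) := by
  rw [Gb_in (disc_norm ht), Nb, List.prod_map_eq_pow_single j,
    List.count_eq_one_of_mem (List.nodup_finRange m) (List.mem_finRange j), pow_one,
    opp_rot hG (hB.ax j), el, ch]
  · rcases disc_im ht j with a | a | a
    · rw [th0 a.2.1.le, th0 a.2.2.le, hR]
      congr 3
      ring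
    · exact absurd rfl a.1
    · exact absurd rfl a.1
  · intro i hi _
    rw [el, ch]
    rcases disc_im ht i with a | a | a
    · exact absurd a.1 hi
    · rw [th1 a.2.1.le, th0 a.2.2.le]
      simp only [sub_self, zero_mul, add_zero, zero_div, opp_zero]
    · rw [th0 a.2.1.le, th1 a.2.2.le]
      simp only [sub_zero, sub_self, zero_mul, add_zero, zero_div, opp_zero]

theorem Gb_unit (hG : SGR) (hB : RepB r m c S om) {h : Fin m → ℂ → ℂ} {κ : ℂ} {t : ℂ}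
    (hs : (∀ j : Fin m, 1 / 5 ≤ ‖t - tp j‖) → ‖t‖ ≤ m + 3 → ‖Gb n c S om h κ t - 1‖ ≤ 1 / 2) :
    IsUnit (Gb n c S om h κ t) := by
  by_cases h1 : ‖t‖ < m - 1 / 2
  · rw [Gb_in h1]
    refine List.prod_induction IsUnit (fun _ _ => IsUnit.mul) isUnit_one fun x hx => ?_
    obtain ⟨j, -, rfl⟩ := List.mem_map.1 hx
    rw [opp_rot hG (hB.ax j)]
    exact ((hG.op _).2.2.2.2 _ ((hG.rt _ c S _ (hB.ax j)).2 _ (exp_ne_zero _)).1).1
  by_cases h2 : (m : ℝ) < ‖t‖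
  · rw [Gb_out h2, Mb, opp_dg hG]
    exact ((hG.op _).2.2.2.2 _ ((hG.dgp _).2 _ (exp_ne_zero _)).1).1
  · refine (unit_of_near (hs (fun j => ?_) (by linarith))).1
    linarith [norm_sub_norm_le t (tp j), tp_norm j]

theorem sf1 (hGR : SGR) : SF1 := by
  classical
  intro r m _
  obtain ⟨C, C0, hC⟩ := Gb_sml hGR r m
  refine ⟨2 * C, by positivity, ?_⟩
  filter_upwards [eventually_ge_atTop 1,
    (tendsto_natCast_atTop_atTop (R := ℝ)).eventually_ge_atTop (2 * C)] with n n1 hn c S om hK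
  have hB := hK.toRepB
  have n0 : (0 : ℝ) < n := by exact_mod_cast n1
  have nz : (n : ℂ) ≠ 0 := by exact_mod_cast n0.ne'
  have half : C / n ≤ 1 / 2 := by rw [div_le_iff₀ n0]; linarith
  have dbl : C / n ≤ 2 * C / n := by gcongr; linarith
  obtain ⟨Gl, hGL⟩ : ∃ G, G = Gb n c S om hL 1 := ⟨_, rfl⟩
  obtain ⟨Gr, hGR'⟩ : ∃ G, G = Gb n c S om hR 0 := ⟨_, rfl⟩
  obtain ⟨G₀, hG₀⟩ : ∃ G : ℂ → EV (Fin r), G = fun t => if t.re < 0 then Gl t else Gr t := ⟨_, rfl⟩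
  obtain ⟨A, hA⟩ : ∃ A : ℂ → EV (Fin r), A = fun t => if ∃ j : Fin m, ‖t - tp j‖ < 1 / 3 then 0
    else if t.re < 0 then dbr Gl t * Ring.inverse (Gl t) else dbr Gr t * Ring.inverse (Gr t) :=
    ⟨_, rfl⟩
  have hq : ∀ t, ∃ g', Op1 g' ∧ qq n c S om t * g' = 1 ∧ g' * qq n c S om t = 1 := fun t =>
    (hGR.op _).2.2.1 _ (qq_op hGR hB t)
  have g0 : ∀ t : ℂ, (t.re < 0 → ‖t‖ < m - 1 / 2 ∨ t.im < 0 ∨ (m : ℝ) - 1 < t.im) →
      ∃ g, Op1 g ∧ Gr t = G₀ t * g := fun t ht => by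
    rw [hG₀]
    by_cases h : t.re < 0
    · obtain ⟨g, a, b, -⟩ := hq t
      refine ⟨g, a, ?_⟩
      simp only [if_pos h]
      rw [hGL, rel hGR hK h (ht h), mul_assoc, b, mul_one, hGR']
    · exact ⟨1, (hGR.op _).1, by simp only [if_neg h, mul_one]⟩
  -- the properties of a branch
  have br : ∀ (O : Set ℂ) (h : Fin m → ℂ → ℂ) (κ : ℂ) (G : ℂ → EV (Fin r)), G = Gb n c S om h κ →
      ‖κ‖ ≤ 1 → (∀ t ∈ O, ∀ j, AnalyticAt ℂ (h j) t) →
      (∀ t j, 1 / 5 ≤ ‖t - tp j‖ → ‖t‖ ≤ m + 3 → ‖h j t‖ ≤ 2 * m + 16) → ∀ t ∈ O,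
      ContDiffAt ℝ ∞ G t ∧ IsUnit (G t) ∧
      ((∀ j : Fin m, 1 / 5 ≤ ‖t - tp j‖) → ‖t‖ ≤ m + 3 → Sml (C / n) G t) ∧
      ((∃ j : Fin m, ‖t - tp j‖ < 1 / 3) ∨ (m : ℝ) < ‖t‖ → dbr G t = 0) := by
    rintro O h κ G rfl hκ ha hb t ht
    have s : (∀ j : Fin m, 1 / 5 ≤ ‖t - tp j‖) → ‖t‖ ≤ m + 3 → Sml (C / n) (Gb n c S om h κ) t :=
      fun a b => hC n (by linarith) n1 c S om hB h κ hκ t b fun j => ⟨ha t ht j, hb t j (a j) b⟩
    refine ⟨Gb_sm (ha t ht), Gb_unit hGR hB fun a b => (s a b).val.trans half, s, ?_⟩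
    rintro (⟨j, hj⟩ | hj)
    exacts [Gb_disc (ha t ht) hj, Gb_far (ha t ht) hj]
  have bL := br {t | t.re < 0} hL 1 Gl hGL (by simp) (fun t ht => hL_an ht)
    fun t j a b => (h_bd j a b).2
  have bR := br (OR m) hR 0 Gr hGR' (by simp) (fun t ht => hR_an ht) fun t j a b => (h_bd j a b).1
  have oL : IsOpen {t : ℂ | t.re < 0} := isOpen_lt continuous_re continuous_const
  have aL : ∀ t ∈ {t : ℂ | t.re < 0}, A t = dbr Gl t * Ring.inverse (Gl t) ∧
      ∃ g, Op1 g ∧ Gl t = G₀ t * g := fun t ht => by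
    have ht' : t.re < 0 := ht
    refine ⟨?_, 1, (hGR.op _).1, by simp only [hG₀, if_pos ht', mul_one]⟩
    simp only [hA, if_pos ht']
    split_ifs with a
    · rw [(bL t ht).2.2.2 (Or.inl a), zero_mul]
    · rfl
  have aR : ∀ t ∈ OR m, A t = dbr Gr t * Ring.inverse (Gr t) ∧ ∃ g, Op1 g ∧ Gr t = G₀ t * g :=
    fun t ht => by
    refine ⟨?_, g0 t fun h => ht.2.resolve_left h.not_gt⟩
    simp only [hA]
    split_ifs with a b
    · rw [(bR t ht).2.2.2 (Or.inl a), zero_mul]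
    · obtain ⟨g, -, e1, e2⟩ := hq t
      refine gauge (g := qq n c S om t) ?_ ((bR t ht).1.differentiableAt (by simp)) (bR t ht).2.1
        ⟨⟨_, g, e1, e2⟩, rfl⟩
      have i1 : ∀ j : Fin m, t.im ≠ (j : ℕ) := fun j e => by
        rcases ht.1 j with i | i
        · rw [sub_re, tp_re] at i; linarith
        · exact i (by rw [sub_im, tp_im, e, sub_self])
      filter_upwards [qq_loc (n := n) (c := c) (S := S) (om := om) i1, oL.mem_nhds b,
        OR_open.mem_nhds ht] with y y1 y2 y3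
      rw [← y1, hGL, hGR', rel hGR hK y2 (y3.2.resolve_left (LT.lt.not_gt y2))]
    · rfl
  -- a branch near each point
  have loc : ∀ (O : Set ℂ) (G : ℂ → EV (Fin r)), (O = {t : ℂ | t.re < 0} ∧ G = Gl) ∨
      (O = OR m ∧ G = Gr) → IsOpen O ∧ ∀ t ∈ O, (ContDiffAt ℝ ∞ G t ∧ IsUnit (G t) ∧
      ((∀ j : Fin m, 1 / 5 ≤ ‖t - tp j‖) → ‖t‖ ≤ m + 3 → Sml (C / n) G t) ∧
      ((∃ j : Fin m, ‖t - tp j‖ < 1 / 3) ∨ (m : ℝ) < ‖t‖ → dbr G t = 0)) ∧
      (A t = dbr G t * Ring.inverse (G t) ∧ ∃ g, Op1 g ∧ G t = G₀ t * g) := by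
    rintro O G (⟨rfl, rfl⟩ | ⟨rfl, rfl⟩)
    exacts [⟨oL, fun t ht => ⟨bL t ht, aL t ht⟩⟩, ⟨OR_open, fun t ht => ⟨bR t ht, aR t ht⟩⟩]
  have cov : ∀ t : ℂ, (∀ j : Fin m, t ≠ tp j) → ∃ O G, ((O = {t : ℂ | t.re < 0} ∧ G = Gl) ∨
      (O = OR m ∧ G = Gr)) ∧ t ∈ O := fun t ht =>
    (cover ht).elim (fun a => ⟨_, _, Or.inl ⟨rfl, rfl⟩, a⟩) fun a => ⟨_, _, Or.inr ⟨rfl, rfl⟩, a⟩
  have a0 : ∀ (j : Fin m) (t : ℂ), ‖t - tp j‖ < 1 / 3 → A t = 0 := fun j t ht => by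
    simp only [hA, if_pos (⟨j, ht⟩ : ∃ j : Fin m, ‖t - tp j‖ < 1 / 3)]
  have np : ∀ t : ℂ, ¬ (∃ j : Fin m, ‖t - tp j‖ < 1 / 3) → ∀ j : Fin m, t ≠ tp j :=
    fun t h j e => h ⟨j, by rw [e, sub_self, norm_zero]; norm_num⟩
  have a1 : ∀ t : ℂ, (m : ℝ) + 1 ≤ ‖t‖ → A t = 0 := fun t ht => by
    obtain ⟨O, G, h, hO⟩ := cov t fun j e => by linarith [tp_norm j, e ▸ ht]
    obtain ⟨b, a, -⟩ := (loc O G h).2 t hO
    rw [a, b.2.2.2 (Or.inr (by linarith)), zero_mul]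
  refine ⟨G₀, A, contDiff_iff_contDiffAt.2 fun t => ?_, a1, a0, fun t => ?_, fun t ht => ?_,
    fun j s hs h => ?_, fun τ h => ?_, fun t₀ h0 h1 => ?_⟩
  · by_cases hd : ∃ j : Fin m, ‖t - tp j‖ < 1 / 3
    · obtain ⟨j, hj⟩ := hd
      refine (contDiffAt_const (c := (0 : EV (Fin r)))).congr_of_eventuallyEq ?_
      filter_upwards [ContinuousAt.eventually_lt (f := fun y : ℂ => ‖y - tp j‖) (by fun_prop)
        continuousAt_const hj] with y hy using a0 j y hy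
    · obtain ⟨O, G, h, hO⟩ := cov t (np t hd)
      obtain ⟨o, hl⟩ := loc O G h
      obtain ⟨⟨b1, ⟨u, hu⟩, -⟩, -⟩ := hl t hO
      have i : ContDiffAt ℝ ∞ (Ring.inverse : EV (Fin r) → EV (Fin r)) (G t) :=
        hu ▸ contDiffAt_ringInverse ℝ u
      refine ((dbr_smooth b1).mul (i.comp t b1)).congr_of_eventuallyEq ?_
      filter_upwards [o.mem_nhds hO] with y hy using (hl y hy).2.1
  · have z0 : 0 ≤ 2 * C / n := by positivity
    by_cases hd : ∃ j : Fin m, ‖t - tp j‖ < 1 / 3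
    · obtain ⟨j, hj⟩ := hd
      rwa [a0 j t hj, norm_zero]
    by_cases hf : (m : ℝ) + 1 ≤ ‖t‖
    · rwa [a1 t hf, norm_zero]
    obtain ⟨O, G, h, hO⟩ := cov t (np t hd)
    obtain ⟨b, a, -⟩ := (loc O G h).2 t hO
    push Not at hd hf
    have s := b.2.2.1 (fun j => by linarith [hd j]) (by linarith)
    rw [a]
    refine (norm_mul_le _ _).trans ((mul_le_mul s.der (unit_of_near (s.val.trans half)).2
      (norm_nonneg _) (by positivity)).trans (le_of_eq (by ring)))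
  · obtain ⟨O, G, h, hO⟩ := cov t ht
    obtain ⟨o, hl⟩ := loc O G h
    refine ⟨?_, O, G, o, hO, fun y hy => (hl y hy).1.1.contDiffWithinAt,
      fun y hy => ⟨?_, (hl y hy).2.2⟩⟩
    · obtain ⟨b, -, g, hg, e⟩ := hl t hO
      obtain ⟨g', -, e1, e2⟩ := (hGR.op _).2.2.1 _ hg
      have : G₀ t = G t * g' := by rw [e, mul_assoc, e1, mul_one]
      rw [this]
      exact b.2.1.mul ⟨⟨g', g, e2, e1⟩, rfl⟩
    · rw [(hl y hy).2.1, Ring.inverse_mul_cancel_right _ _ (hl y hy).1.2.1]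
  · have hd : ‖tp j + s ^ n - tp j‖ < 1 / 3 := by rwa [add_sub_cancel_left]
    obtain ⟨g, hg, e⟩ := g0 _ fun _ => Or.inl (disc_norm hd)
    rw [hGR', GR_disc hGR hB hd, add_sub_cancel_left] at e
    obtain ⟨w, hw⟩ : ∃ w, w = exp (log (s ^ n) / n) := ⟨_, rfl⟩
    have w0 : w ≠ 0 := hw ▸ exp_ne_zero _
    have w1 : w ^ n = s ^ n := by
      rw [hw, ← exp_nat_mul, mul_div_cancel₀ _ nz, exp_log (pow_ne_zero _ hs)]
    have u1 : ‖s / w‖ = 1 :=
      norm_one_of_pow (n := n) (by omega) (by rw [div_pow, w1, div_self (pow_ne_zero _ hs)])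
    have u0 : s / w ≠ 0 := div_ne_zero hs w0
    refine ⟨g * rot c S (om j) (s / w),
      (hGR.op _).2.1 _ _ hg (((hGR.rt _ c S _ (hB.ax j)).2 _ u0).2.1 u1), ?_⟩
    rw [← mul_assoc, ← e, ← hw, ← ((hGR.rt _ c S _ (hB.ax j)).2 _ w0).2.2.1 _ u0,
      mul_div_cancel₀ _ w0]
  · have hm : (m : ℝ) < ‖τ ^ n‖ := by linarith
    have t0 : τ ^ n ≠ 0 := norm_pos_iff.1 (lt_of_le_of_lt (by positivity) hm)
    have τ0 : τ ≠ 0 := fun e => t0 (by rw [e, zero_pow (by omega)])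
    obtain ⟨z, hz, e⟩ : ∃ z : ℂ, exp z = τ ^ n ∧ G₀ (τ ^ n) = dg (exp (4 * m * z / n)) := by
      have tz : tp (0 : Fin m) = 0 := by simp [tp]
      simp only [hG₀]
      split_ifs
      · refine ⟨hL (0 : Fin m) (τ ^ n), ?_, by rw [hGL, Gb_out hm, Mb, opp_dg hGR]⟩
        rw [hL, tz, sub_zero, exp_add, exp_log (neg_ne_zero.2 t0), exp_pi_mul_I]
        ring
      · exact ⟨hR (0 : Fin m) (τ ^ n), by rw [hR, tz, sub_zero, exp_log t0],
          by rw [hGR', Gb_out hm, Mb, opp_dg hGR]⟩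
    obtain ⟨w, hw⟩ : ∃ w, w = exp (4 * m * z / n) := ⟨_, rfl⟩
    have w0 : w ≠ 0 := hw ▸ exp_ne_zero _
    have p0 : τ ^ (4 * m) ≠ 0 := pow_ne_zero _ τ0
    have w1 : w ^ n = (τ ^ (4 * m)) ^ n := by
      rw [hw, ← exp_nat_mul, mul_div_cancel₀ _ nz, ← pow_mul, mul_comm (4 * m) n, pow_mul, ← hz,
        ← exp_nat_mul]
      push_cast
      rfl
    have u1 : ‖τ ^ (4 * m) / w‖ = 1 :=
      norm_one_of_pow (n := n) (by omega) (by rw [div_pow, w1, div_self (pow_ne_zero _ p0)])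
    have u0 : τ ^ (4 * m) / w ≠ 0 := div_ne_zero p0 w0
    refine ⟨dg (τ ^ (4 * m) / w), ((hGR.dgp _).2 _ u0).2.1 u1, ?_⟩
    rw [e, ← hw, ← ((hGR.dgp _).2 _ w0).2.2 _ u0, mul_div_cancel₀ _ w0]
  · obtain ⟨O, G, h, hO⟩ : ∃ O G, ((O = {t : ℂ | t.re < 0} ∧ G = Gl) ∨ (O = OR m ∧ G = Gr)) ∧
        ball t₀ (1 / 32) ⊆ O := by
      by_cases a : -(1 / 32) < t₀.re
      · exact ⟨_, _, Or.inr ⟨rfl, rfl⟩, hub_sub h0 a⟩
      · refine ⟨_, _, Or.inl ⟨rfl, rfl⟩, fun t ht => ?_⟩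
        rw [mem_ball, dist_eq_norm] at ht
        have a1 := abs_lt.1 ((abs_re_le_norm (t - t₀)).trans_lt ht)
        rw [sub_re] at a1
        change t.re < 0
        linarith
    obtain ⟨-, hl⟩ := loc O G h
    refine ⟨G, fun y hy => (hl y (hO hy)).1.1.contDiffWithinAt, fun y hy => ⟨?_,
      (hl y (hO hy)).2.2, ?_⟩⟩
    · rw [(hl y (hO hy)).2.1, Ring.inverse_mul_cancel_right _ _ (hl y (hO hy)).1.2.1]
    · have b := (hl y (hO hy)).1.2.2.1
      rw [mem_ball, dist_eq_norm] at hy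
      refine (b (fun j => ?_) ?_).val.trans dbl
      · have a3 := norm_sub_le (y - tp j) (y - t₀)
        rw [show y - tp j - (y - t₀) = t₀ - tp j by ring] at a3
        linarith [h0 j]
      · linarith [norm_sub_norm_le y t₀]

end

end Pool.Agent.MP_fcd29e_an.H8
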