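import Pool.Agent.MP_fcd29e_an.H11.CS

/-!
Calculus for `dbr` and maps that are close to the identity.
-/

set_option autoImplicit false

open Complex Set Filter Topology Metric Pool.Agent.MP_fcd29e_an.H11
open scoped ContDiff

namespace Pool.Agent.MP_fcd29e_an.H8

noncomputable section

variable {ι : Type} [Fintype ι]

theorem dbr_hol {A : Type} [NormedAddCommGroup A] [NormedSpace ℝ A] [NormedSpace ℂ A]
    [IsScalarTower ℝ ℂ A] {u : ℂ → A} {t : ℂ} (h : DifferentiableAt ℂ u t) : dbr u t = 0 := by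
  have h1 := (h.hasFDerivAt.restrictScalars ℝ).fderiv
  have h2 : fderiv ℂ u t I = I • fderiv ℂ u t 1 := by
    rw [← map_smul, smul_eq_mul, mul_one]
  rw [dbr, h1]
  simp only [ContinuousLinearMap.coe_restrictScalars', h2, smul_smul, I_mul_I, neg_smul, one_smul,
    add_neg_cancel]

theorem dbr_congr {A : Type} [NormedAddCommGroup A] [NormedSpace ℝ A] [NormedSpace ℂ A]
    {u v : ℂ → A} {t : ℂ} (h : u =ᶠ[𝓝 t] v) : dbr u t = dbr v t := by
  rw [dbr, dbr, h.fderiv_eq]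

theorem dbr_add {A : Type} [NormedAddCommGroup A] [NormedSpace ℝ A] [NormedSpace ℂ A]
    {u v : ℂ → A} {t : ℂ} (hu : DifferentiableAt ℝ u t) (hv : DifferentiableAt ℝ v t) :
    dbr (fun y => u y + v y) t = dbr u t + dbr v t := by
  rw [dbr, dbr, dbr, (hu.hasFDerivAt.fun_add hv.hasFDerivAt).fderiv]
  simp only [add_apply, smul_add]
  abel

theorem dbr_smul {A : Type} [NormedAddCommGroup A] [NormedSpace ℝ A] [NormedSpace ℂ A]
    [IsScalarTower ℝ ℂ A] {φ : ℂ → ℂ} {u : ℂ → A} {t : ℂ} (hφ : DifferentiableAt ℝ φ t)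
    (hu : DifferentiableAt ℝ u t) :
    dbr (fun y => φ y • u y) t = dbr φ t • u t + φ t • dbr u t := by
  rw [dbr, dbr, dbr, (hφ.hasFDerivAt.fun_smul hu.hasFDerivAt).fderiv]
  simp only [add_apply, smul_apply,
    ContinuousLinearMap.smulRight_apply, smul_add, add_smul, smul_eq_mul, mul_smul]
  rw [smul_comm I (φ t)]
  abel

theorem smul_mul' (c : ℂ) (a b : EV ι) : c • a * b = c • (a * b) :=
  ContinuousLinearMap.ext fun _ => rfl

theorem mul_smul' (c : ℂ) (a b : EV ι) : a * c • b = c • (a * b) :=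
  ContinuousLinearMap.ext fun x => a.map_smul c (b x)

theorem dbr_mul {u v : ℂ → EV ι} {t : ℂ} (hu : DifferentiableAt ℝ u t)
    (hv : DifferentiableAt ℝ v t) :
    dbr (fun y => u y * v y) t = dbr u t * v t + u t * dbr v t := by
  rw [dbr, dbr, dbr, (hu.hasFDerivAt.fun_mul' hv.hasFDerivAt).fderiv]
  simp only [add_apply, smul_apply, smul_eq_mul,
    MulOpposite.smul_eq_mul_unop, MulOpposite.unop_op, smul_add, add_mul, mul_add]
  rw [smul_mul', mul_smul']
  abel

theorem dbr_exp {z : ℂ → ℂ} {t : ℂ} (hz : DifferentiableAt ℝ z t) :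
    dbr (fun y => exp (z y)) t = exp (z t) * dbr z t := by
  rw [dbr, dbr, hz.hasFDerivAt.cexp.fderiv]
  simp only [smul_apply, smul_eq_mul]
  ring

theorem dbr_smooth {u : ℂ → EV ι} {t : ℂ} (hu : ContDiffAt ℝ ∞ u t) :
    ContDiffAt ℝ ∞ (dbr u) t := by
  have h : ContDiffAt ℝ ∞ (fderiv ℝ u) t := hu.fderiv_right (by simp)
  exact (h.clm_apply contDiffAt_const).add ((h.clm_apply contDiffAt_const).const_smul I)

theorem bdd {κ : Type} [Fintype κ] (φ : κ → ℂ → ℂ) (hφ : ∀ j, ContDiff ℝ ∞ (φ j)) (R : ℝ) :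
    ∃ Λ : ℝ, 0 ≤ Λ ∧ ∀ j t, ‖t‖ ≤ R → ‖φ j t‖ ≤ Λ ∧ ‖dbr (φ j) t‖ ≤ Λ := by
  have h : ∀ j, ∃ Λ : ℝ, ∀ t, ‖t‖ ≤ R → ‖φ j t‖ + ‖dbr (φ j) t‖ ≤ Λ := fun j => by
    have h1 : Continuous (fderiv ℝ (φ j)) := (hφ j).continuous_fderiv (by simp)
    have h2 : Continuous fun t => ‖φ j t‖ + ‖dbr (φ j) t‖ :=
      (hφ j).continuous.norm.add ((h1.clm_apply continuous_const).add
        ((h1.clm_apply continuous_const).const_smul I)).norm
    obtain ⟨Λ, hΛ⟩ := (isCompact_closedBall (0 : ℂ) R).exists_bound_of_continuousOn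
      h2.continuousOn
    exact ⟨Λ, fun t ht => (le_abs_self _).trans (hΛ t (by simpa using ht))⟩
  choose Λ hΛ using h
  refine ⟨∑ j, |Λ j|, by positivity, fun j t ht => ?_⟩
  have h1 := hΛ j t ht
  have h2 : |Λ j| ≤ ∑ j, |Λ j| :=
    Finset.single_le_sum (f := fun j => |Λ j|) (fun _ _ => abs_nonneg _) (Finset.mem_univ j)
  have h3 := le_abs_self (Λ j)
  constructor <;> linarith [norm_nonneg (φ j t), norm_nonneg (dbr (φ j) t)]

theorem n1 : ‖(1 : EV ι)‖ ≤ 1 := ContinuousLinearMap.norm_id_le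

theorem nle {u : EV ι} {K : ℝ} (h : ‖u - 1‖ ≤ K) : ‖u‖ ≤ 1 + K := by
  have := norm_add_le (u - 1) 1
  rw [sub_add_cancel] at this
  linarith [n1 (ι := ι)]

theorem unit_of_near {u : EV ι} (h : ‖u - 1‖ ≤ 1 / 2) : IsUnit u ∧ ‖Ring.inverse u‖ ≤ 2 := by
  have h' : ‖1 - u‖ ≤ 1 / 2 := by rwa [norm_sub_rev]
  have hu : IsUnit u := by
    have := (Units.oneSub (1 - u) (by linarith)).isUnit
    simpa using this
  refine ⟨hu, ?_⟩
  have e : Ring.inverse u = 1 + Ring.inverse u * (1 - u) := by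
    rw [mul_sub, Ring.inverse_mul_cancel _ hu]; simp
  have h1 := norm_add_le (1 : EV ι) (Ring.inverse u * (1 - u))
  have h2 := norm_mul_le (Ring.inverse u) (1 - u)
  rw [← e] at h1
  nlinarith [n1 (ι := ι), norm_nonneg (Ring.inverse u)]

/-- Close to the identity to first order. -/
structure Sml (K : ℝ) (u : ℂ → EV ι) (t : ℂ) : Prop where
  df : DifferentiableAt ℝ u t
  val : ‖u t - 1‖ ≤ K
  der : ‖dbr u t‖ ≤ K

theorem Sml.mono {K K' : ℝ} {u : ℂ → EV ι} {t : ℂ} (h : Sml K u t) (hK : K ≤ K') : Sml K' u t :=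
  ⟨h.df, h.val.trans hK, h.der.trans hK⟩

theorem Sml.mul {K K' : ℝ} {u v : ℂ → EV ι} {t : ℂ} (hu : Sml K u t) (hv : Sml K' v t)
    (hK : K ≤ 1) : Sml (K + 3 * K') (fun y => u y * v y) t := by
  have k0 : 0 ≤ K := (norm_nonneg _).trans hu.val
  have k1 : 0 ≤ K' := (norm_nonneg _).trans hv.val
  refine ⟨hu.df.mul hv.df, ?_, ?_⟩
  · have e : u t * v t - 1 = u t * (v t - 1) + (u t - 1) := by rw [mul_sub, mul_one]; abel
    have h1 := norm_add_le (u t * (v t - 1)) (u t - 1)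
    have h2 := (norm_mul_le (u t) (v t - 1)).trans
      (mul_le_mul (nle hu.val) hv.val (norm_nonneg _) (by linarith))
    rw [e]
    nlinarith [hu.val]
  · rw [dbr_mul hu.df hv.df]
    have h1 := norm_add_le (dbr u t * v t) (u t * dbr v t)
    have h2 := (norm_mul_le (dbr u t) (v t)).trans
      (mul_le_mul hu.der (nle hv.val) (norm_nonneg _) k0)
    have h3 := (norm_mul_le (u t) (dbr v t)).trans
      (mul_le_mul (nle hu.val) hv.der (norm_nonneg _) (by linarith))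
    nlinarith

theorem Sml.prod {α : Type} {K : ℝ} (k0 : 0 ≤ K) (k1 : K ≤ 1) {t : ℂ} (f : α → ℂ → EV ι)
    (hf : ∀ a, Sml K (f a) t) (l : List α) :
    Sml (4 ^ l.length * K) (fun y => (l.map fun a => f a y).prod) t := by
  induction l with
  | nil =>
    refine ⟨by simp, by simpa using k0, ?_⟩
    rw [dbr_hol (by simp)]
    simpa using k0
  | cons a l ih =>
    simp only [List.map_cons, List.prod_cons, List.length_cons]
    refine ((hf a).mul ih k1).mono ?_
    have : (1 : ℝ) ≤ 4 ^ l.length := one_le_pow₀ (by norm_num)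
    rw [pow_succ]
    nlinarith

theorem Sml.mix {K Λ : ℝ} {u v : ℂ → EV ι} {β : ℂ → ℂ} {t : ℂ} (hu : Sml K u t) (hv : Sml K v t)
    (hβ : DifferentiableAt ℝ β t) (h0 : ‖β t‖ ≤ Λ) (h1 : ‖dbr β t‖ ≤ Λ) :
    Sml ((4 * Λ + 1) * K) (fun y => β y • u y + (1 - β y) • v y) t := by
  have k0 : 0 ≤ K := (norm_nonneg _).trans hu.val
  have l0 : 0 ≤ Λ := (norm_nonneg _).trans h0
  have e : (fun y => β y • u y + (1 - β y) • v y) =
      fun y => β y • (u y + (-1 : ℂ) • v y) + v y := by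
    funext y; module
  have d1 : DifferentiableAt ℝ (fun y => (-1 : ℂ) • v y) t := hv.df.fun_const_smul _
  have d2 : DifferentiableAt ℝ (fun y => u y + (-1 : ℂ) • v y) t := hu.df.add d1
  have b1 : ‖u t + (-1 : ℂ) • v t‖ ≤ 2 * K := by
    have : u t + (-1 : ℂ) • v t = (u t - 1) - (v t - 1) := by module
    rw [this]
    linarith [norm_sub_le (u t - 1) (v t - 1), hu.val, hv.val]
  have b2 : ‖dbr (fun y => u y + (-1 : ℂ) • v y) t‖ ≤ 2 * K := by
    rw [dbr_add hu.df d1, dbr_smul (by simp) hv.df, dbr_hol (u := fun _ => (-1 : ℂ)) (by simp)]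
    have := norm_add_le (dbr u t) ((-1 : ℂ) • dbr v t)
    rw [norm_smul, norm_neg, norm_one, one_mul] at this
    rw [zero_smul ℂ (v t), zero_add]
    linarith [hu.der, hv.der]
  rw [e]
  refine ⟨(hβ.smul d2).add hv.df, ?_, ?_⟩
  · have := norm_add_le (β t • (u t + (-1 : ℂ) • v t)) (v t - 1)
    rw [norm_smul] at this
    have h2 := mul_le_mul h0 b1 (norm_nonneg _) l0
    rw [add_sub_assoc]
    nlinarith [hv.val]
  · rw [dbr_add (hβ.fun_smul d2) hv.df, dbr_smul hβ d2]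
    have h2 := mul_le_mul h1 b1 (norm_nonneg _) l0
    have h3 := mul_le_mul h0 b2 (norm_nonneg _) l0
    have h4 := norm_add₃_le (a := dbr β t • (u t + (-1 : ℂ) • v t))
      (b := β t • dbr (fun y => u y + (-1 : ℂ) • v y) t) (c := dbr v t)
    rw [norm_smul, norm_smul] at h4
    nlinarith [hv.der]

/-- A one-parameter family. -/
def opp (P Q : EV ι) (z : ℂ) : EV ι := 1 + (exp z - 1) • P + (exp (-z) - 1) • Q

theorem opp_an (P Q : EV ι) (z : ℂ) : AnalyticAt ℂ (opp P Q) z := by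
  unfold opp
  fun_prop

theorem sml_opp {P Q : EV ι} {D δ : ℝ} (hP : ‖P‖ ≤ D) (hQ : ‖Q‖ ≤ D) {z : ℂ → ℂ} {t : ℂ}
    (hz : DifferentiableAt ℝ z t) (h0 : ‖z t‖ ≤ δ) (h1 : ‖dbr z t‖ ≤ δ) (hδ : δ ≤ 1) :
    Sml (6 * D * δ) (fun y => opp P Q (z y)) t := by
  have D0 : 0 ≤ D := (norm_nonneg _).trans hP
  have δ0 : 0 ≤ δ := (norm_nonneg _).trans h0
  have key : ∀ (R : EV ι) (w : ℂ → ℂ), ‖R‖ ≤ D → DifferentiableAt ℝ w t → ‖w t‖ ≤ δ →
      ‖dbr w t‖ ≤ δ → DifferentiableAt ℝ (fun y => (exp (w y) - 1) • R) t ∧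
      ‖(exp (w t) - 1) • R‖ ≤ 3 * D * δ ∧ ‖dbr (fun y => (exp (w y) - 1) • R) t‖ ≤ 3 * D * δ := by
    intro R w hR hw a0 a1
    have d0 : DifferentiableAt ℝ (fun y => exp (w y)) t := hw.cexp
    have d1 : DifferentiableAt ℝ (fun y => exp (w y) - 1) t := d0.sub_const 1
    have b0 : ‖exp (w t) - 1‖ ≤ 2 * δ :=
      (Complex.norm_exp_sub_one_le (a0.trans hδ)).trans (by linarith)
    have b1 : ‖exp (w t)‖ ≤ 3 := by
      have := norm_add_le (exp (w t) - 1) 1
      rw [sub_add_cancel, norm_one] at this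
      linarith
    have e : dbr (fun y => exp (w y) - 1) t = exp (w t) * dbr w t := by
      rw [← dbr_exp hw, dbr, dbr, fderiv_sub_const]
    refine ⟨d1.smul_const R, ?_, ?_⟩
    · rw [norm_smul]
      nlinarith [mul_le_mul b0 hR (norm_nonneg _) (by linarith), mul_nonneg D0 δ0]
    · rw [dbr_smul d1 (by simp), dbr_hol (u := fun _ => R) (by simp), smul_zero, add_zero, e,
        norm_smul, norm_mul]
      nlinarith [mul_le_mul (mul_le_mul b1 a1 (norm_nonneg _) (by norm_num)) hR (norm_nonneg _)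
        (by linarith)]
  have hn : dbr (fun y => -z y) t = -dbr z t := by
    rw [dbr, dbr, fderiv_fun_neg]; simp; ring
  obtain ⟨p1, p2, p3⟩ := key P z hP hz h0 h1
  obtain ⟨q1, q2, q3⟩ := key Q (fun y => -z y) hQ hz.neg (by simpa using h0)
    (by rw [hn]; simpa using h1)
  have c1 : DifferentiableAt ℝ (fun _ : ℂ => (1 : EV ι)) t := by simp
  refine ⟨(c1.add p1).add q1, ?_, ?_⟩
  · have : opp P Q (z t) - 1 = (exp (z t) - 1) • P + (exp (-z t) - 1) • Q := by
      unfold opp; abel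
    rw [this]
    linarith [norm_add_le ((exp (z t) - 1) • P) ((exp (-z t) - 1) • Q)]
  · unfold opp
    rw [dbr_add (c1.fun_add p1) q1, dbr_add c1 p1, dbr_hol (u := fun _ => (1 : EV ι)) (by simp),
      zero_add]
    linarith [norm_add_le (dbr (fun y => (exp (z y) - 1) • P) t)
      (dbr (fun y => (exp (-z y) - 1) • Q) t)]

theorem list_ind {α : Type} {P : (ℂ → EV ι) → Prop} (h1 : P fun _ => 1)
    (hm : ∀ u v, P u → P v → P fun y => u y * v y) (f : α → ℂ → EV ι) (hf : ∀ a, P (f a))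
    (l : List α) : P fun y => (l.map fun a => f a y).prod := by
  induction l with
  | nil => simpa using h1
  | cons a l ih => simpa only [List.map_cons, List.prod_cons] using hm _ _ (hf a) ih

theorem prod_mul_comm {α M : Type} [Monoid M] (a b : α → M) (l : List α)
    (h : l.Pairwise fun i j => Commute (b i) (a j)) :
    (l.map fun i => a i * b i).prod = (l.map a).prod * (l.map b).prod := by
  induction l with
  | nil => simp
  | cons i l ih =>
    rw [List.pairwise_cons] at h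
    have hc : Commute (b i) (l.map a).prod := Commute.list_prod_right _ _ (by
      intro x hx
      obtain ⟨j, hj, rfl⟩ := List.mem_map.1 hx
      exact h.1 j hj)
    simp only [List.map_cons, List.prod_cons, ih h.2]
    rw [mul_assoc, ← mul_assoc (b i), hc.eq]
    simp only [mul_assoc]

theorem gauge {u v : ℂ → EV ι} {g : EV ι} {t : ℂ} (h : u =ᶠ[𝓝 t] fun y => v y * g)
    (hv : DifferentiableAt ℝ v t) (hu : IsUnit (v t)) (hg : IsUnit g) :
    dbr u t * Ring.inverse (u t) = dbr v t * Ring.inverse (v t) := by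
  rw [dbr_congr h, h.eq_of_nhds, dbr_mul hv (by simp), dbr_hol (u := fun _ => g) (by simp),
    mul_zero, add_zero]
  obtain ⟨a, ha⟩ := hu
  obtain ⟨b, rfl⟩ := hg
  rw [← ha, ← Units.val_mul, Ring.inverse_unit, Ring.inverse_unit, mul_inv_rev, Units.val_mul,
    mul_assoc, Units.mul_inv_cancel_left]

theorem log_bd {w : ℂ} {R : ℝ} (h0 : 1 / 5 ≤ ‖w‖) (h1 : ‖w‖ ≤ R) : ‖log w‖ ≤ R + 9 := by
  have hw : 0 < ‖w‖ := by linarith
  have a1 := Real.log_le_sub_one_of_pos hw
  have a2 := Real.log_le_sub_one_of_pos (inv_pos.2 hw)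
  have a3 : ‖w‖⁻¹ ≤ 5 := by rw [inv_le_comm₀ hw (by norm_num)]; linarith
  rw [Real.log_inv] at a2
  have a4 : |(log w).re| ≤ R + 5 := by rw [log_re, abs_le]; constructor <;> linarith
  have a5 : |(log w).im| ≤ 4 := by
    rw [log_im]; exact (abs_arg_le_pi w).trans Real.pi_le_four
  linarith [norm_le_abs_re_add_abs_im (log w)]

theorem log_neg' {w : ℂ} (h : w.re < 0) :
    log (-w) + Real.pi * I = log w + if w.im < 0 then 2 * Real.pi * I else 0 := by
  apply Complex.ext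
  · split_ifs <;> simp [log_re]
  · rcases lt_trichotomy w.im 0 with h1 | h1 | h1
    · simp [log_im, h1, arg_neg_eq_arg_add_pi_of_im_neg h1]; ring
    · have a1 : arg w = Real.pi := arg_eq_pi_iff.2 ⟨h, h1⟩
      have a2 : arg (-w) = 0 := arg_eq_zero_iff.2 ⟨by simpa using h.le, by simpa using h1⟩
      simp [log_im, h1, a1, a2]
    · simp [log_im, h1.not_gt, arg_neg_eq_arg_sub_pi_of_im_pos h1]

theorem norm_one_of_pow {u : ℂ} {n : ℕ} (hn : n ≠ 0) (h : u ^ n = 1) : ‖u‖ = 1 := by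
  have := congrArg norm h
  rw [norm_pow, norm_one] at this
  exact (pow_eq_one_iff_of_nonneg (norm_nonneg _) hn).1 this

end

end Pool.Agent.MP_fcd29e_an.H8
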