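import Pool.Agent.MP_fcd29e_an.H8.CF1a

/-!
The two branches of the smooth gauge.
-/

set_option autoImplicit false

open Complex Set Filter Topology Metric Pool.Agent.MP_fcd29e_an.H11
open scoped ContDiff

namespace Pool.Agent.MP_fcd29e_an.H8

noncomputable section

/-- A smooth step. -/
def th (y : ℝ) : ℂ := (Real.smoothTransition (6 * y - 2) : ℝ)

theorem th0 {y : ℝ} (h : y ≤ 1 / 3) : th y = 0 := by
  rw [th, Real.smoothTransition.zero_of_nonpos (by linarith), ofReal_zero]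

theorem th1 {y : ℝ} (h : 1 / 2 ≤ y) : th y = 1 := by
  rw [th, Real.smoothTransition.one_of_one_le (by linarith), ofReal_one]

theorem th_sm : ContDiff ℝ ∞ th :=
  ofRealCLM.contDiff.comp (Real.smoothTransition.contDiff.comp (by fun_prop))

theorem th_hol {f : ℂ → ℝ} {t : ℂ} (hf : Continuous f) (h : f t < 1 / 3 ∨ 1 / 2 < f t) :
    DifferentiableAt ℂ (fun y => th (f y)) t := by
  rcases h with h | h
  · refine (differentiableAt_const (0 : ℂ)).congr_of_eventuallyEq ?_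
    filter_upwards [hf.continuousAt.eventually_lt continuousAt_const h] with y hy using th0 hy.le
  · refine (differentiableAt_const (1 : ℂ)).congr_of_eventuallyEq ?_
    filter_upwards [continuousAt_const.eventually_lt hf.continuousAt h] with y hy using th1 hy.le

variable {r m : ℕ}

/-- The cut-off of the strip around a cut. -/
def ch (j : Fin m) (t : ℂ) : ℂ := 1 - th (t.im - (j : ℕ)) - th ((j : ℕ) - t.im)

/-- The step below a cut. -/
def dn (j : Fin m) (t : ℂ) : ℂ := 2 * Real.pi * I * th ((j : ℕ) - t.im)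

/-- The cut-off at infinity. -/
def be (m : ℕ) (t : ℂ) : ℂ := th ((m : ℝ) ^ 2 + 1 / 3 - normSq t)

theorem im_sm : ContDiff ℝ ∞ fun t : ℂ => t.im := imCLM.contDiff

theorem ch_sm (j : Fin m) : ContDiff ℝ ∞ (ch j) :=
  (contDiff_const.sub (th_sm.comp (im_sm.sub contDiff_const))).sub
    (th_sm.comp (contDiff_const.sub im_sm))

theorem dn_sm (j : Fin m) : ContDiff ℝ ∞ (dn j) :=
  contDiff_const.mul (th_sm.comp (contDiff_const.sub im_sm))

theorem be_eq (m : ℕ) (t : ℂ) : be m t = th ((m : ℝ) ^ 2 + 1 / 3 - ‖t‖ ^ 2) := by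
  rw [be, normSq_eq_norm_sq]

theorem be_sm (m : ℕ) : ContDiff ℝ ∞ (be m) := by
  have : be m = fun t => th ((m : ℝ) ^ 2 + 1 / 3 - ‖t‖ ^ 2) := funext (be_eq m)
  rw [this]
  exact th_sm.comp (contDiff_const.sub (contDiff_norm_sq ℝ))

theorem be_in [NeZero m] {t : ℂ} (h : ‖t‖ < m - 1 / 2) :
    1 / 2 < (m : ℝ) ^ 2 + 1 / 3 - ‖t‖ ^ 2 := by
  have h1 : (1 : ℝ) ≤ m := by exact_mod_cast NeZero.one_le
  nlinarith [norm_nonneg t]

theorem be1 [NeZero m] {t : ℂ} (h : ‖t‖ < m - 1 / 2) : be m t = 1 := by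
  rw [be_eq, th1 (be_in h).le]

theorem be0 {t : ℂ} (h : (m : ℝ) < ‖t‖) : be m t = 0 := by
  have h1 : (0 : ℝ) ≤ m := by positivity
  rw [be_eq, th0 (by nlinarith)]

theorem tp_re (j : Fin m) : (tp j).re = 0 := by simp [tp]

theorem tp_im (j : Fin m) : (tp j).im = (j : ℕ) := by simp [tp]

theorem tp_norm (j : Fin m) : ‖tp j‖ ≤ (m : ℝ) - 1 := by
  have : ((j : ℕ) : ℝ) + 1 ≤ m := by exact_mod_cast j.2
  simp only [tp, norm_mul, norm_I, one_mul, norm_natCast]
  linarith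

theorem disc_norm {j : Fin m} {t : ℂ} (h : ‖t - tp j‖ < 1 / 3) : ‖t‖ < m - 1 / 2 := by
  have := norm_add_le (t - tp j) (tp j)
  rw [sub_add_cancel] at this
  linarith [tp_norm j]

theorem disc_im {j : Fin m} {t : ℂ} (h : ‖t - tp j‖ < 1 / 3) (i : Fin m) :
    (i = j ∧ t.im - (i : ℕ) < 1 / 3 ∧ (i : ℕ) - t.im < 1 / 3) ∨
    (i ≠ j ∧ 1 / 2 < t.im - (i : ℕ) ∧ (i : ℕ) - t.im < 1 / 3) ∨
    (i ≠ j ∧ t.im - (i : ℕ) < 1 / 3 ∧ 1 / 2 < (i : ℕ) - t.im) := by
  have h1 := (abs_im_le_norm (t - tp j)).trans_lt h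
  rw [sub_im, tp_im, abs_lt] at h1
  rcases lt_trichotomy i j with h2 | h2 | h2
  · have : ((i : ℕ) : ℝ) + 1 ≤ (j : ℕ) := by exact_mod_cast h2
    exact Or.inr (Or.inl ⟨h2.ne, by linarith, by linarith⟩)
  · subst h2
    exact Or.inl ⟨rfl, by linarith, by linarith⟩
  · have : ((j : ℕ) : ℝ) + 1 ≤ (i : ℕ) := by exact_mod_cast h2
    exact Or.inr (Or.inr ⟨h2.ne', by linarith, by linarith⟩)

section branch

variable [NeZero m] (n : ℕ) (c S : ℝ) (om : Fin m → Fin r → ℂ) (h : Fin m → ℂ → ℂ) (κ : ℂ)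

/-- The exponent. -/
def el (j : Fin m) (t : ℂ) : ℂ := (ch j t * h j t + κ * dn j t) / n

/-- The product of the rotations. -/
def Nb (t : ℂ) : EV (Fin r) :=
  ((List.finRange m).map fun j => opp (Pp c S (om j)) (Pm c S (om j)) (el n h κ j t)).prod

/-- The rotation at infinity. -/
def Mb (t : ℂ) : EV (Fin r) := opp Qp Qm (4 * m * h 0 t / n)

/-- A branch of the gauge. -/
def Gb (t : ℂ) : EV (Fin r) := be m t • Nb n c S om h κ t + (1 - be m t) • Mb n h t

variable {n c S om h κ}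

theorem an_sm {A : Type} [NormedAddCommGroup A] [NormedSpace ℝ A] [NormedSpace ℂ A]
    [IsScalarTower ℝ ℂ A] [CompleteSpace A] {f : ℂ → A} {t : ℂ} (hf : AnalyticAt ℂ f t) :
    ContDiffAt ℝ ∞ f t := (hf.contDiffAt (n := ∞)).restrict_scalars ℝ

theorem Mb_an {t : ℂ} (hh : ∀ j, AnalyticAt ℂ (h j) t) : AnalyticAt ℂ (Mb (r := r) n h) t :=
  (opp_an _ _ _).comp (f := fun y => 4 * m * h 0 y / n)
    ((analyticAt_const.mul (hh 0)).div_const)

omit [NeZero m] in
theorem el_sm {t : ℂ} (hh : ∀ j, AnalyticAt ℂ (h j) t) (j : Fin m) :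
    ContDiffAt ℝ ∞ (el n h κ j) t :=
  (((ch_sm j).contDiffAt.mul (an_sm (hh j))).add
    (contDiffAt_const.mul (dn_sm j).contDiffAt)).div_const _

theorem Gb_sm {t : ℂ} (hh : ∀ j, AnalyticAt ℂ (h j) t) : ContDiffAt ℝ ∞ (Gb n c S om h κ) t := by
  have h1 : ContDiffAt ℝ ∞ (Nb n c S om h κ) t :=
    list_ind (ι := Fin r) (P := fun u => ContDiffAt ℝ ∞ u t) contDiffAt_const
      (fun _ _ a b => a.mul b) _
      (fun j => (an_sm (opp_an (Pp c S (om j)) (Pm c S (om j)) _)).comp t (el_sm hh j)) _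
  exact ((be_sm m).contDiffAt.smul h1).add
    ((contDiffAt_const.sub (be_sm m).contDiffAt).smul (an_sm (Mb_an hh)))

theorem Gb_disc {t : ℂ} (hh : ∀ j, AnalyticAt ℂ (h j) t) {j : Fin m} (ht : ‖t - tp j‖ < 1 / 3) :
    dbr (Gb n c S om h κ) t = 0 := by
  have a1 : ∀ i : Fin m, DifferentiableAt ℂ (fun y : ℂ => th (y.im - (i : ℕ))) t := fun i =>
    th_hol (by fun_prop) (by rcases disc_im ht i with a | a | a <;> tauto)
  have a2 : ∀ i : Fin m, DifferentiableAt ℂ (fun y : ℂ => th ((i : ℕ) - y.im)) t := fun i =>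
    th_hol (by fun_prop) (by rcases disc_im ht i with a | a | a <;> tauto)
  have a3 : DifferentiableAt ℂ (be m) t := by
    have : be m = fun t => th ((m : ℝ) ^ 2 + 1 / 3 - ‖t‖ ^ 2) := funext (be_eq m)
    rw [this]
    exact th_hol (by fun_prop) (Or.inr (be_in (disc_norm ht)))
  have a4 : ∀ i, DifferentiableAt ℂ (el n h κ i) t := fun i =>
    (((((differentiableAt_const _).sub (a1 i)).sub (a2 i)).mul (hh i).differentiableAt).add
      ((differentiableAt_const _).mul ((differentiableAt_const _).mul (a2 i)))).div_const _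
  have h1 : DifferentiableAt ℂ (Nb n c S om h κ) t :=
    list_ind (ι := Fin r) (P := fun u => DifferentiableAt ℂ u t) (differentiableAt_const _)
      (fun _ _ a b => a.mul b) _ (fun j =>
        (opp_an (Pp c S (om j)) (Pm c S (om j)) _).differentiableAt.comp t (a4 j)) _
  exact dbr_hol ((a3.smul h1).add
    (((differentiableAt_const _).sub a3).smul (Mb_an hh).differentiableAt))

theorem Gb_out {t : ℂ} (ht : (m : ℝ) < ‖t‖) : Gb n c S om h κ t = Mb n h t := by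
  rw [Gb, be0 ht]
  module

theorem Gb_in {t : ℂ} (ht : ‖t‖ < m - 1 / 2) : Gb n c S om h κ t = Nb n c S om h κ t := by
  rw [Gb, be1 ht]
  module

theorem Gb_far {t : ℂ} (hh : ∀ j, AnalyticAt ℂ (h j) t) (ht : (m : ℝ) < ‖t‖) :
    dbr (Gb n c S om h κ) t = 0 := by
  refine dbr_hol ((Mb_an (r := r) (n := n) hh).differentiableAt.congr_of_eventuallyEq ?_)
  filter_upwards [continuousAt_const.eventually_lt continuous_norm.continuousAt ht] with y hy
    using Gb_out hy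

end branch

theorem opp_rot (hG : SGR) {c S : ℝ} {w : Fin r → ℂ} (ha : Ax c S w) (z : ℂ) :
    opp (Pp c S w) (Pm c S w) z = rot c S w (exp z) := by
  rw [((hG.rt _ c S w ha).2 _ (exp_ne_zero z)).2.2.2, opp, exp_neg]

theorem opp_dg (hG : SGR) (z : ℂ) : opp (Qp : EV (Fin r)) Qm z = dg (exp z) := by
  have := (hG.dgp (Fin r)).1
  rw [dg, inv_one] at this
  rw [opp, exp_neg, dg, ← this]
  module

theorem Gb_sml (hG : SGR) (r m : ℕ) [NeZero m] : ∃ C : ℝ, 0 ≤ C ∧ ∀ n : ℕ, C ≤ n → 1 ≤ n →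
    ∀ (c S : ℝ) (om : Fin m → Fin r → ℂ), RepB r m c S om → ∀ (h : Fin m → ℂ → ℂ) (κ : ℂ),
      ‖κ‖ ≤ 1 → ∀ t : ℂ, ‖t‖ ≤ m + 3 → (∀ j, AnalyticAt ℂ (h j) t ∧ ‖h j t‖ ≤ 2 * m + 16) →
        Sml (C / n) (Gb n c S om h κ) t := by
  obtain ⟨D, D0, hD⟩ := hG.bd (Fin r) (4 * r + 1)
  obtain ⟨Λ₁, l1, h1⟩ := bdd (fun j : Fin m => ch j) ch_sm (m + 3)
  obtain ⟨Λ₂, l2, h2⟩ := bdd (fun j : Fin m => dn j) dn_sm (m + 3)
  obtain ⟨Λ₃, l3, h3⟩ := bdd (fun _ : Unit => be m) (fun _ => be_sm m) (m + 3)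
  obtain ⟨D', hD', D1, dp, dm⟩ : ∃ D' : ℝ, D ≤ D' ∧ 1 ≤ D' ∧ ‖(Qp : EV (Fin r))‖ ≤ D' ∧
      ‖(Qm : EV (Fin r))‖ ≤ D' := ⟨D + 1 + ‖(Qp : EV (Fin r))‖ + ‖(Qm : EV (Fin r))‖,
    by linarith [norm_nonneg (Qp : EV (Fin r)), norm_nonneg (Qm : EV (Fin r))],
    by linarith [norm_nonneg (Qp : EV (Fin r)), norm_nonneg (Qm : EV (Fin r))],
    by linarith [norm_nonneg (Qm : EV (Fin r))], by linarith [norm_nonneg (Qp : EV (Fin r))]⟩
  obtain ⟨L, hL⟩ : ∃ L : ℝ, L = Λ₁ * (2 * m + 16) + Λ₂ + 4 * m * (2 * m + 16) := ⟨_, rfl⟩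
  have m0 : (0 : ℝ) ≤ m := by positivity
  have p1 : 0 ≤ Λ₁ * (2 * m + 16) := by positivity
  have p2 : 0 ≤ 4 * (m : ℝ) * (2 * m + 16) := by positivity
  have L0 : 0 ≤ L := by rw [hL]; positivity
  have f1 : (1 : ℝ) ≤ 4 ^ m := one_le_pow₀ (by norm_num)
  refine ⟨(4 * Λ₃ + 1) * (4 ^ m * (6 * D' * L)), by positivity, ?_⟩
  intro n hn n1 c S om hB h κ hκ t ht hh
  have n0 : (0 : ℝ) < n := by exact_mod_cast n1
  have q0 : 0 ≤ 6 * D' * L := by positivity
  have q1 : 6 * D' * L ≤ 4 ^ m * (6 * D' * L) := le_mul_of_one_le_left q0 f1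
  have q2 : 4 ^ m * (6 * D' * L) ≤ (4 * Λ₃ + 1) * (4 ^ m * (6 * D' * L)) :=
    le_mul_of_one_le_left (by positivity) (by linarith)
  have q3 : L ≤ 6 * D' * L := le_mul_of_one_le_left L0 (by linarith)
  have δ1 : L / n ≤ 1 := (div_le_one n0).2 (by linarith)
  have δ2 : 6 * D' * (L / n) ≤ 1 := by
    rw [← mul_div_assoc]; exact (div_le_one n0).2 (by linarith)
  have dv : ∀ (z : ℂ → ℂ), DifferentiableAt ℝ z t → ‖z t‖ ≤ L → ‖dbr z t‖ ≤ L →
      ∀ P Q : EV (Fin r), ‖P‖ ≤ D' → ‖Q‖ ≤ D' →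
      Sml (6 * D' * (L / n)) (fun y => opp P Q (z y / n)) t := by
    intro z hz a0 a1 P Q hP hQ
    refine sml_opp hP hQ (by simp only [div_eq_mul_inv]; exact hz.mul_const _) ?_ ?_ δ1
    · rw [norm_div, norm_natCast]; gcongr
    · have e : (fun y => z y / n) = fun y => (fun _ => (n : ℂ)⁻¹) y • z y := by
        funext y; rw [smul_eq_mul, div_eq_inv_mul]
      rw [e, dbr_smul (by simp) hz, dbr_hol (u := fun _ => (n : ℂ)⁻¹) (by simp), zero_smul,
        zero_add, norm_smul, norm_inv, norm_natCast, ← div_eq_inv_mul]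
      gcongr
  have hd : ∀ j, DifferentiableAt ℝ (h j) t := fun j =>
    (an_sm (hh j).1).differentiableAt (by simp)
  have hN : Sml (4 ^ m * (6 * D' * (L / n))) (Nb n c S om h κ) t := by
    have := Sml.prod (by positivity) δ2
      (fun j y => opp (Pp c S (om j)) (Pm c S (om j)) (el n h κ j y)) (t := t) (fun j => by
        have c1 : DifferentiableAt ℝ (ch j) t := (ch_sm j).differentiable (by simp) t
        have c2 : DifferentiableAt ℝ (dn j) t := (dn_sm j).differentiable (by simp) t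
        have c3 : DifferentiableAt ℝ (fun y => κ * dn j y) t := c2.const_mul κ
        have b := hD c S (om j) (hB.ax j) hB.hc
        obtain ⟨u1, u2⟩ := h1 j t ht
        obtain ⟨v1, v2⟩ := h2 j t ht
        refine dv (fun y => ch j y * h j y + κ * dn j y) ((c1.mul (hd j)).add c3) ?_ ?_ _ _
          (b.1.trans hD') (b.2.1.trans hD')
        · have := norm_add_le (ch j t * h j t) (κ * dn j t)
          rw [norm_mul, norm_mul] at this
          nlinarith [mul_le_mul u1 (hh j).2 (norm_nonneg _) l1,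
            mul_le_mul hκ v1 (norm_nonneg _) zero_le_one]
        · have e1 := dbr_smul c1 (hd j)
          have e2 := dbr_smul (φ := fun _ => κ) (by simp) c2
          rw [dbr_hol (hh j).1.differentiableAt] at e1
          rw [dbr_hol (u := fun _ => κ) (by simp)] at e2
          simp only [smul_eq_mul, mul_zero, add_zero, zero_mul, zero_add] at e1 e2
          rw [dbr_add (c1.fun_mul (hd j)) c3, e1, e2]
          have := norm_add_le (dbr (ch j) t * h j t) (κ * dbr (dn j) t)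
          rw [norm_mul, norm_mul] at this
          nlinarith [mul_le_mul u2 (hh j).2 (norm_nonneg _) l1,
            mul_le_mul hκ v2 (norm_nonneg _) zero_le_one]) (List.finRange m)
    rwa [List.length_finRange] at this
  have hM : Sml (4 ^ m * (6 * D' * (L / n))) (Mb (r := r) n h) t := by
    refine (dv (fun y => 4 * m * h 0 y) ((hd 0).const_mul _) ?_ ?_ _ _ dp dm).mono
      (le_mul_of_one_le_left (by positivity) f1)
    · have : ‖(4 * m : ℂ)‖ = 4 * m := by simp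
      rw [norm_mul, this]
      nlinarith [mul_le_mul_of_nonneg_left (hh 0).2 (by positivity : (0 : ℝ) ≤ 4 * m)]
    · rw [dbr_hol ((hh 0).1.differentiableAt.const_mul _), norm_zero]
      exact L0
  refine (hN.mix hM ((be_sm m).differentiable (by simp) t) (h3 () t ht).1 (h3 () t ht).2).mono
    (le_of_eq ?_)
  ring

end

end Pool.Agent.MP_fcd29e_an.H8
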